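import Mathlib

/-! From Sarason's criterion to a commutator relation with a Hermitian matrix. -/

set_option autoImplicit false

namespace Pool.Agent.Y165.TTO

open Matrix Complex
open scoped ComplexOrder

variable {n : ℕ}

/-- the rank-two matrices `u k* + k v*` -/
def Rk (k : Fin n → ℂ) (E : Matrix (Fin n) (Fin n) ℂ) : Prop :=
  ∃ u v : Fin n → ℂ, E = vecMulVec u (star k) + vecMulVec k (star v)

theorem Rk.add {k : Fin n → ℂ} {E F : Matrix (Fin n) (Fin n) ℂ} (h : Rk k E) (h' : Rk k F) :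
    Rk k (E + F) := by
  obtain ⟨u, v, rfl⟩ := h
  obtain ⟨u', v', rfl⟩ := h'
  refine ⟨u + u', v + v', ?_⟩
  ext i j
  simp [vecMulVec_apply]
  ring

theorem Rk.left (k u : Fin n → ℂ) : Rk k (vecMulVec u (star k)) :=
  ⟨u, 0, by ext i j; simp [vecMulVec_apply]⟩

theorem Rk.right (k v : Fin n → ℂ) : Rk k (vecMulVec k v) :=
  ⟨0, star v, by ext i j; simp [vecMulVec_apply]⟩

theorem Rk.neg {k : Fin n → ℂ} {E : Matrix (Fin n) (Fin n) ℂ} (h : Rk k E) : Rk k (-E) := by
  obtain ⟨u, v, rfl⟩ := h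
  refine ⟨-u, -v, ?_⟩
  ext i j
  simp [vecMulVec_apply]
  ring

/-- existence of the completed row -/
theorem exists_row (T : Matrix (Fin n) (Fin n) ℂ) (k : Fin n → ℂ) :
    ∃ (w : Fin n → ℂ) (g : ℂ), T *ᵥ w = -(g • k) ∧ star w ⬝ᵥ w = 1 - (‖g‖ ^ 2 : ℝ) := by
  classical
  let φ : ((Fin n → ℂ) × ℂ) →ₗ[ℂ] (Fin n → ℂ) :=
    { toFun := fun p => T *ᵥ p.1 + p.2 • k
      map_add' := by
        intro p q
        simp only [Prod.fst_add, Prod.snd_add, mulVec_add, add_smul]
        abel
      map_smul' := by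
        intro c p
        simp only [Prod.smul_fst, Prod.smul_snd, mulVec_smul, smul_add, smul_smul,
          RingHom.id_apply, smul_eq_mul] }
  have hker : LinearMap.ker φ ≠ ⊥ := by
    apply LinearMap.ker_ne_bot_of_finrank_lt
    rw [Module.finrank_prod]
    simp
  obtain ⟨p, hp, hp0⟩ := Submodule.exists_mem_ne_zero_of_ne_bot hker
  obtain ⟨w, g⟩ := p
  have h1 : T *ᵥ w + g • k = 0 := hp
  -- norm
  set N : ℝ := ∑ i, ‖w i‖ ^ 2 + ‖g‖ ^ 2 with hN
  have hNpos : 0 < N := by
    rcases eq_or_ne g 0 with hg | hg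
    · have hw : w ≠ 0 := by
        rintro rfl
        exact hp0 (by simp [hg])
      obtain ⟨i, hi⟩ := Function.ne_iff.1 hw
      have h2 : 0 < ‖w i‖ ^ 2 := by
        have : 0 < ‖w i‖ := norm_pos_iff.2 hi
        positivity
      have h3 : ‖w i‖ ^ 2 ≤ ∑ i, ‖w i‖ ^ 2 :=
        Finset.single_le_sum (f := fun i => ‖w i‖ ^ 2) (fun j _ => by positivity)
          (Finset.mem_univ i)
      rw [hN]
      have : 0 ≤ ‖g‖ ^ 2 := by positivity
      linarith
    · have : 0 < ‖g‖ := norm_pos_iff.2 hg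
      have h3 : 0 ≤ ∑ i, ‖w i‖ ^ 2 := Finset.sum_nonneg fun i _ => by positivity
      rw [hN]
      positivity
  set c : ℝ := (Real.sqrt N)⁻¹ with hc
  have hc2 : c ^ 2 * N = 1 := by
    rw [hc, inv_pow, Real.sq_sqrt hNpos.le]
    field_simp
  have hcpos : 0 < c := by
    rw [hc]
    have := Real.sqrt_pos.2 hNpos
    positivity
  refine ⟨(c : ℂ) • w, (c : ℂ) * g, ?_, ?_⟩
  · rw [mulVec_smul]
    have h2 : T *ᵥ w = -(g • k) := by
      rw [eq_neg_iff_add_eq_zero]; exact h1
    rw [h2, smul_neg, smul_smul]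
  · have h4 : star ((c : ℂ) • w) ⬝ᵥ ((c : ℂ) • w) = ((c ^ 2 * ∑ i, ‖w i‖ ^ 2 : ℝ) : ℂ) := by
      simp only [dotProduct, Pi.star_apply, Pi.smul_apply, smul_eq_mul, star_mul']
      push_cast
      rw [Finset.mul_sum]
      refine Finset.sum_congr rfl fun i _ => ?_
      have h5 : star (w i) * w i = ((‖w i‖ : ℂ)) ^ 2 := by
        have := Complex.conj_mul' (w i)
        simpa using this
      have h6 : star (c : ℂ) = (c : ℂ) := by simp
      calc star (c : ℂ) * star (w i) * ((c : ℂ) * w i)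
          = (c : ℂ) ^ 2 * (star (w i) * w i) := by rw [h6]; ring
        _ = _ := by rw [h5]
    rw [h4]
    have h7 : ‖(c : ℂ) * g‖ ^ 2 = c ^ 2 * ‖g‖ ^ 2 := by
      rw [norm_mul, mul_pow]
      congr 1
      rw [Complex.norm_real, Real.norm_eq_abs, sq_abs]
    rw [h7]
    have h8 : c ^ 2 * ∑ i, ‖w i‖ ^ 2 = 1 - c ^ 2 * ‖g‖ ^ 2 := by
      have : c ^ 2 * (∑ i, ‖w i‖ ^ 2 + ‖g‖ ^ 2) = 1 := hc2
      linarith
    rw [h8]
    push_cast
    ring


theorem smul_Rk {k : Fin n → ℂ} {E : Matrix (Fin n) (Fin n) ℂ} (c : ℂ) (h : Rk k E) :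
    Rk k (c • E) := by
  obtain ⟨u, v, rfl⟩ := h
  refine ⟨c • u, star c • v, ?_⟩
  ext i j
  simp [vecMulVec_apply]
  ring

/-- a scalar with the right modulus relation -/
theorem exists_s (g : ℂ) : ∃ s : ℂ, ‖1 + s * star g‖ = ‖s‖ := by
  by_cases h : star g = 1
  · refine ⟨-(1/2), ?_⟩
    rw [h]
    norm_num
  · refine ⟨1 / (1 - star g), ?_⟩
    have h1 : 1 - star g ≠ 0 := fun h2 => h (sub_eq_zero.1 h2).symm
    congr 1
    field_simp
    ring

theorem exists_V (T : Matrix (Fin n) (Fin n) ℂ) (k : Fin n → ℂ)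
    (hT : 1 - T * Tᴴ = vecMulVec k (star k)) :
    ∃ (w : Fin n → ℂ), (T + vecMulVec k (star w)) * (T + vecMulVec k (star w))ᴴ = 1 := by
  obtain ⟨w, g, h1, h2⟩ := exists_row T k
  obtain ⟨s, hs⟩ := exists_s g
  refine ⟨star s • w, ?_⟩
  have hTT : T * Tᴴ = 1 - vecMulVec k (star k) := by rw [← hT]; abel
  have e1 : (T + vecMulVec k (star (star s • w)))ᴴ = Tᴴ + vecMulVec (star s • w) (star k) := by
    rw [conjTranspose_add]
    congr 1
    ext i j
    simp [vecMulVec_apply, conjTranspose_apply]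
    ring
  rw [e1, mul_add, add_mul, add_mul, hTT]
  have e2 : T * vecMulVec (star s • w) (star k) = -(star s * g) • vecMulVec k (star k) := by
    rw [mul_vecMulVec, mulVec_smul, h1]
    ext i j
    simp [vecMulVec_apply]
    ring
  have e3 : vecMulVec k (star (star s • w)) * Tᴴ = -(s * star g) • vecMulVec k (star k) := by
    rw [vecMulVec_mul]
    have h3 : star (star s • w) ᵥ* Tᴴ = star (T *ᵥ (star s • w)) := by
      rw [star_mulVec]
    rw [h3, mulVec_smul, h1]
    ext i j
    simp [vecMulVec_apply]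
    ring
  have e4 : vecMulVec k (star (star s • w)) * vecMulVec (star s • w) (star k)
      = ((s * star s) * (1 - (‖g‖ ^ 2 : ℝ)) : ℂ) • vecMulVec k (star k) := by
    rw [vecMulVec_mul_vecMulVec]
    have h3 : star (star s • w) ⬝ᵥ (star s • w) = (s * star s) * (1 - (‖g‖ ^ 2 : ℝ)) := by
      rw [star_smul, smul_dotProduct, dotProduct_smul, h2]
      simp
      ring
    rw [h3]
    ext i j
    simp [vecMulVec_apply]
    ring
  rw [e2, e3, e4]
  have key : (1 : ℂ) + (star s * g) + (s * star g) - (s * star s) * (1 - (‖g‖ ^ 2 : ℝ)) = 0 := by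
    have h5 : ((‖1 + s * star g‖ ^ 2 : ℝ) : ℂ) = ((‖s‖ ^ 2 : ℝ) : ℂ) := by rw [hs]
    push_cast at h5
    have a1 : ∀ z : ℂ, (‖z‖ : ℂ) ^ 2 = z * star z := fun z => by
      have := Complex.mul_conj' z
      simpa using this.symm
    rw [a1, a1] at h5
    push_cast
    rw [a1]
    simp only [star_add, star_one, star_mul', star_star] at h5
    linear_combination h5
  have : (1 : Matrix (Fin n) (Fin n) ℂ) - vecMulVec k (star k) + -(s * star g) • vecMulVec k (star k)
      + (-(star s * g) • vecMulVec k (star k)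
        + ((s * star s) * (1 - (‖g‖ ^ 2 : ℝ)) : ℂ) • vecMulVec k (star k))
      = 1 - ((1 : ℂ) + (star s * g) + (s * star g) - (s * star s) * (1 - (‖g‖ ^ 2 : ℝ)))
        • vecMulVec k (star k) := by
    simp only [sub_smul, add_smul, one_smul, neg_smul]
    abel
  rw [this, key, zero_smul, sub_zero]

/-- the unitary `V`, differing from `T` by `k w*`, still satisfies a rank-two relation -/
theorem rk_V (T M : Matrix (Fin n) (Fin n) ℂ) (k w : Fin n → ℂ)
    (h : Rk k (M - T * M * Tᴴ)) :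
    Rk k (M - (T + vecMulVec k (star w)) * M * (T + vecMulVec k (star w))ᴴ) := by
  have e1 : (T + vecMulVec k (star w))ᴴ = Tᴴ + vecMulVec w (star k) := by
    rw [conjTranspose_add]
    congr 1
    ext i j
    simp [vecMulVec_apply, conjTranspose_apply, mul_comm]
  have e2 : M - (T + vecMulVec k (star w)) * M * (T + vecMulVec k (star w))ᴴ
      = (M - T * M * Tᴴ) + -(T * M * vecMulVec w (star k))
        + -(vecMulVec k (star w) * (M * (Tᴴ + vecMulVec w (star k)))) := by
    rw [e1]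
    simp only [mul_add, add_mul, Matrix.mul_assoc]
    abel
  rw [e2]
  refine (h.add (Rk.neg ?_)).add (Rk.neg ?_)
  · rw [mul_vecMulVec]; exact Rk.left _ _
  · rw [vecMulVec_mul]; exact Rk.right _ _


/-- there is a unimodular number that is not an eigenvalue -/
theorem exists_unimodular (V : Matrix (Fin n) (Fin n) ℂ) :
    ∃ z : ℂ, ‖z‖ = 1 ∧ (1 - z • V).det ≠ 0 := by
  -- infinitely many unimodular numbers
  let f : ℕ → ℂ := fun t => (1 + (t : ℂ) * I) / (1 - (t : ℂ) * I)
  have hne : ∀ t : ℕ, (1 - (t : ℂ) * I) ≠ 0 := by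
    intro t h
    have := congrArg Complex.re h
    simp at this
  have hinj : Function.Injective f := by
    intro s t h
    simp only [f] at h
    rw [div_eq_div_iff (hne s) (hne t)] at h
    have h1 : (2 * I) * ((s : ℂ) - t) = 0 := by linear_combination h
    have h2 : (2 * I) ≠ 0 := by simp
    have h3 := (mul_eq_zero.1 h1).resolve_left h2
    have h4 := sub_eq_zero.1 h3
    exact_mod_cast h4
  have hnorm : ∀ t, ‖f t‖ = 1 := by
    intro t
    simp only [f, norm_div]
    have h1 : (1 - (t : ℂ) * I) = (starRingEnd ℂ) (1 + (t : ℂ) * I) := by simp [sub_eq_add_neg]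
    rw [h1, Complex.norm_conj]
    have : (1 + (t : ℂ) * I) ≠ 0 := by
      intro h
      have := congrArg Complex.re h
      simp at this
    exact div_self (norm_ne_zero_iff.2 this)
  have hinf : (Set.range f).Infinite := Set.infinite_range_of_injective hinj
  have hfin : {z : ℂ | V.charpoly.IsRoot z}.Finite := by
    have := V.charpoly.roots.toFinset.finite_toSet
    refine this.subset ?_
    intro z hz
    simp only [Finset.mem_coe, Multiset.mem_toFinset]
    rw [Polynomial.mem_roots (Matrix.charpoly_monic V).ne_zero]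
    exact hz
  obtain ⟨z, ⟨t, rfl⟩, hz⟩ := (hinf.sdiff hfin).nonempty
  have hz0 : f t ≠ 0 := by
    intro h
    have := hnorm t
    rw [h] at this
    simp at this
  refine ⟨(f t)⁻¹, by rw [norm_inv, hnorm, inv_one], ?_⟩
  intro hdet
  apply hz
  simp only [Set.mem_ofPred_eq, Polynomial.IsRoot, Matrix.eval_charpoly]
  have h1 : Matrix.scalar (Fin n) (f t) - V = (f t) • (1 - (f t)⁻¹ • V) := by
    rw [smul_sub, smul_smul, mul_inv_cancel₀ hz0, one_smul]
    congr 1
    ext i j
    simp [Matrix.one_apply, Matrix.diagonal_apply]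
  rw [h1, Matrix.det_smul, hdet, mul_zero]

/-- The Cayley transform. -/
theorem cayley (M V : Matrix (Fin n) (Fin n) ℂ) (k : Fin n → ℂ) (hV : V * Vᴴ = 1)
    (hM : Rk k (M - V * M * Vᴴ)) :
    ∃ (H R : Matrix (Fin n) (Fin n) ℂ) (z : ℂ), ‖z‖ = 1 ∧ H.IsHermitian ∧
      H = (2 * I) • R - I • (1 : Matrix (Fin n) (Fin n) ℂ) ∧ R * (1 - z • V) = 1 ∧
      Rk (R *ᵥ k) (M * H - H * M) := by
  obtain ⟨z, hz, hdet⟩ := exists_unimodular V
  set W := z • V with hW
  have hzz : z * star z = 1 := by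
    have := Complex.mul_conj' z
    rw [hz] at this
    simpa using this
  have hWW : W * Wᴴ = 1 := by
    rw [hW, conjTranspose_smul, smul_mul_smul_comm, hV, hzz, one_smul]
  have hWW' : Wᴴ * W = 1 := mul_eq_one_comm.1 hWW
  set R := (1 - W)⁻¹ with hR
  have hunit : IsUnit (1 - W).det := isUnit_iff_ne_zero.2 hdet
  have hR1 : R * (1 - W) = 1 := nonsing_inv_mul _ hunit
  have hR2 : (1 - W) * R = 1 := mul_nonsing_inv _ hunit
  have hMW : M - W * M * Wᴴ = M - V * M * Vᴴ := by
    rw [hW, conjTranspose_smul]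
    congr 1
    rw [smul_mul_assoc, smul_mul_assoc, mul_smul_comm, smul_smul, hzz, one_smul]
  -- `W * R = - Rᴴ`
  have hRH : Rᴴ = -(W * R) := by
    have h1 : (1 - Wᴴ) * Rᴴ = 1 := by
      have := congrArg conjTranspose hR1
      rw [conjTranspose_mul, conjTranspose_sub, conjTranspose_one] at this
      exact this
    have h2 : (1 - Wᴴ) * (-(W * R)) = 1 := by
      have : (1 - Wᴴ) * (-(W * R)) = (Wᴴ * W) * R - W * R := by
        simp only [sub_mul, mul_neg, one_mul, Matrix.mul_assoc]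
        abel
      rw [this, hWW', one_mul]
      have h3 : R - W * R = (1 - W) * R := by rw [sub_mul, one_mul]
      rw [h3, hR2]
    have h3 : Rᴴ * (1 - Wᴴ) = 1 := mul_eq_one_comm.1 h1
    calc Rᴴ = Rᴴ * ((1 - Wᴴ) * (-(W * R))) := by rw [h2, mul_one]
      _ = (Rᴴ * (1 - Wᴴ)) * (-(W * R)) := by rw [Matrix.mul_assoc]
      _ = _ := by rw [h3, one_mul]
  have hWR : W * R = R * W := by
    have h1 : (1 - W) * R = R * (1 - W) := by rw [hR1, hR2]
    rw [sub_mul, mul_sub, one_mul, mul_one] at h1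
    exact (sub_right_inj.1 h1)
  have hWR2 : W * R = R - 1 := by
    have : R - W * R = 1 := by
      have h3 : R - W * R = (1 - W) * R := by rw [sub_mul, one_mul]
      rw [h3, hR2]
    rw [← this]; abel
  refine ⟨(2 * I) • R - I • (1 : Matrix (Fin n) (Fin n) ℂ), R, z, hz, ?_, rfl, hR1, ?_⟩
  · -- Hermitian
    unfold Matrix.IsHermitian
    rw [conjTranspose_sub, conjTranspose_smul, conjTranspose_smul, conjTranspose_one, hRH, hWR2]
    have e1 : star (2 * I) = -(2 * I) := by simp
    have e2 : star I = -I := by simp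
    rw [e1, e2]
    simp only [neg_smul, smul_neg, smul_sub]
    have : (2 * I) • (1 : Matrix (Fin n) (Fin n) ℂ)
        = I • (1 : Matrix (Fin n) (Fin n) ℂ) + I • (1 : Matrix (Fin n) (Fin n) ℂ) := by
      rw [← add_smul]; congr 1; ring
    rw [this]
    abel
  · -- rank two
    have hE : M * W - W * M = (M - V * M * Vᴴ) * W := by
      rw [← hMW, sub_mul]
      congr 1
      rw [Matrix.mul_assoc (W * M), hWW', mul_one]
    have h1 : M * ((2 * I) • R - I • (1 : Matrix (Fin n) (Fin n) ℂ))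
        - ((2 * I) • R - I • (1 : Matrix (Fin n) (Fin n) ℂ)) * M
        = (2 * I) • (M * R - R * M) := by
      simp only [mul_sub, sub_mul, mul_smul_comm, smul_mul_assoc, mul_one, one_mul, smul_sub]
      abel
    have h2 : M * R - R * M = R * (M * W - W * M) * R := by
      have : R * (M * W - W * M) * R = (R * (1 - W)) * M * R - R * M * ((1 - W) * R) := by
        simp only [mul_sub, sub_mul, one_mul, mul_one, Matrix.mul_assoc]
        abel
      rw [this, hR1, hR2, one_mul, mul_one]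
    rw [h1, h2, hE]
    apply smul_Rk
    have h3 : R * ((M - V * M * Vᴴ) * W) * R = R * (M - V * M * Vᴴ) * (W * R) := by
      simp only [Matrix.mul_assoc]
    rw [h3]
    have h4 : W * R = -Rᴴ := by rw [hRH, neg_neg]
    rw [h4, mul_neg]
    apply Rk.neg
    obtain ⟨u, v, huv⟩ := hM
    rw [huv]
    refine ⟨R *ᵥ u, R *ᵥ v, ?_⟩
    rw [mul_add, add_mul, mul_vecMulVec, mul_vecMulVec, vecMulVec_mul, vecMulVec_mul]
    rw [star_mulVec, star_mulVec]

/-- `H` has simple spectrum and `R k` is cyclic: eigenvectors orthogonal to `k` do not exist. -/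
theorem no_orth (T : Matrix (Fin n) (Fin n) ℂ) (k w : Fin n → ℂ)
    (hT : ∀ μ : ℂ, ∀ x : Fin n → ℂ, x ≠ 0 → T *ᵥ x = μ • x → ‖μ‖ < 1)
    (hV : (T + vecMulVec k (star w)) * (T + vecMulVec k (star w))ᴴ = 1)
    (x : Fin n → ℂ) (hx : x ≠ 0) (c : ℂ) (hc : (T + vecMulVec k (star w)) *ᵥ x = c • x)
    (hk : star k ⬝ᵥ x = 0) : False := by
  set V := T + vecMulVec k (star w) with hVdef
  have hV' : Vᴴ * V = 1 := mul_eq_one_comm.1 hV
  have h1 : c • (Vᴴ *ᵥ x) = x := by
    have : Vᴴ *ᵥ (V *ᵥ x) = x := by rw [mulVec_mulVec, hV', one_mulVec]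
    rw [hc, mulVec_smul] at this
    exact this
  -- `|c| = 1`
  have hnorm : star c * c = 1 := by
    have h2 : star (V *ᵥ x) ⬝ᵥ (V *ᵥ x) = star x ⬝ᵥ x := by
      rw [star_mulVec, ← dotProduct_mulVec, mulVec_mulVec, hV', one_mulVec]
    rw [hc, star_smul, smul_dotProduct, dotProduct_smul, smul_smul, smul_eq_mul] at h2
    have h3 : star x ⬝ᵥ x ≠ 0 := by
      intro h
      exact hx (dotProduct_star_self_eq_zero.1 h)
    exact mul_right_cancel₀ h3 (by rw [h2, one_mul])
  have hc0 : c ≠ 0 := by rintro rfl; simp at hnorm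
  have h2 : Vᴴ *ᵥ x = star c • x := by
    have : star c • (c • (Vᴴ *ᵥ x)) = star c • x := by rw [h1]
    rwa [smul_smul, hnorm, one_smul] at this
  have h3 : Tᴴ *ᵥ x = star c • x := by
    have e1 : Vᴴ = Tᴴ + vecMulVec w (star k) := by
      rw [hVdef, conjTranspose_add]
      congr 1
      ext i j
      simp [vecMulVec_apply, conjTranspose_apply, mul_comm]
    rw [e1, add_mulVec] at h2
    have e2 : vecMulVec w (star k) *ᵥ x = 0 := by
      ext i
      simp only [mulVec, dotProduct, vecMulVec_apply, Pi.zero_apply]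
      have : ∑ j, w i * star k j * x j = w i * (star k ⬝ᵥ x) := by
        simp only [dotProduct, Finset.mul_sum, mul_assoc]
      rw [this, hk, mul_zero]
    rw [e2, add_zero] at h2
    exact h2
  -- transfer to `T`
  have h4 : (Tᴴ - star c • (1 : Matrix (Fin n) (Fin n) ℂ)).det = 0 := by
    apply Matrix.exists_mulVec_eq_zero_iff.1
    refine ⟨x, hx, ?_⟩
    rw [sub_mulVec, h3, smul_mulVec, one_mulVec, sub_self]
  have h5 : (T - c • (1 : Matrix (Fin n) (Fin n) ℂ)).det = 0 := by
    have h6 : (T - c • (1 : Matrix (Fin n) (Fin n) ℂ))ᴴ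
        = Tᴴ - star c • (1 : Matrix (Fin n) (Fin n) ℂ) := by
      rw [conjTranspose_sub, conjTranspose_smul, conjTranspose_one]
    have h7 := Matrix.det_conjTranspose (T - c • (1 : Matrix (Fin n) (Fin n) ℂ))
    rw [h6, h4] at h7
    exact star_eq_zero.1 h7.symm
  obtain ⟨y, hy, hy2⟩ := Matrix.exists_mulVec_eq_zero_iff.2 h5
  rw [sub_mulVec, smul_mulVec, one_mulVec, sub_eq_zero] at hy2
  have h8 := hT c y hy hy2
  have h9 : ‖c‖ = 1 := by
    have h10 := congrArg norm hnorm
    rw [norm_mul, norm_star, norm_one] at h10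
    nlinarith [norm_nonneg c]
  linarith


/-- **Normal form.** -/
theorem normal_form (M T : Matrix (Fin n) (Fin n) ℂ) (k u v : Fin n → ℂ)
    (hT : 1 - T * Tᴴ = vecMulVec k (star k))
    (hT2 : ∀ μ : ℂ, ∀ x : Fin n → ℂ, x ≠ 0 → T *ᵥ x = μ • x → ‖μ‖ < 1)
    (hM : M - T * M * Tᴴ = vecMulVec u (star k) + vecMulVec k (star v)) :
    ∃ (U : Matrix (Fin n) (Fin n) ℂ) (h : Fin n → ℝ) (k' u' v' : Fin n → ℂ),
      U * Uᴴ = 1 ∧ Function.Injective h ∧
      ∀ i j, (Uᴴ * M * U) i j * ((h j : ℂ) - h i) = u' i * star (k' j) + k' i * star (v' j) := by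
  obtain ⟨w, hw⟩ := exists_V T k hT
  have hM1 := rk_V T M k w ⟨u, v, hM⟩
  obtain ⟨H, R, z, hz, hH, hHR, hR1, hrk⟩ := cayley M _ k hw hM1
  set V := T + vecMulVec k (star w) with hVdef
  have hR2 : (1 - z • V) * R = 1 := mul_eq_one_comm.1 hR1
  let U : Matrix (Fin n) (Fin n) ℂ := hH.eigenvectorUnitary
  have hU1 : Uᴴ * U = 1 := by
    have := Matrix.mem_unitaryGroup_iff'.1 hH.eigenvectorUnitary.2
    simpa [U, star_eq_conjTranspose] using this
  have hU2 : U * Uᴴ = 1 := mul_eq_one_comm.1 hU1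
  have hspec : H = U * diagonal (fun i => (hH.eigenvalues i : ℂ)) * Uᴴ := by
    have := hH.spectral_theorem
    rw [Unitary.conjStarAlgAut_apply] at this
    exact this
  obtain ⟨u1, v1, h1⟩ := hrk
  refine ⟨U, hH.eigenvalues, Uᴴ *ᵥ (R *ᵥ k), Uᴴ *ᵥ u1, Uᴴ *ᵥ v1, hU2, ?_, ?_⟩
  · -- injectivity
    intro i j hij
    by_contra hne
    set lam := hH.eigenvalues i with hlam
    -- a vector in the eigenspace orthogonal to R k
    set k2 := Uᴴ *ᵥ (R *ᵥ k) with hk2
    obtain ⟨x', hx'0, hx'k, hx'e⟩ : ∃ x' : Fin n → ℂ, x' ≠ 0 ∧ star k2 ⬝ᵥ x' = 0 ∧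
        diagonal (fun i => (hH.eigenvalues i : ℂ)) *ᵥ x' = (lam : ℂ) • x' := by
      by_cases h0 : k2 i = 0
      · refine ⟨Pi.single i 1, ?_, ?_, ?_⟩
        · intro h
          have := congrFun h i
          simp at this
        · simp [h0]
        · rw [diagonal_mulVec_single]
          ext l
          by_cases hl : l = i
          · subst hl; simp [hlam]
          · simp [Pi.single_eq_of_ne hl]
      · refine ⟨Pi.single i (star (k2 j)) - Pi.single j (star (k2 i)), ?_, ?_, ?_⟩
        · intro h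
          have := congrFun h j
          rw [Pi.sub_apply, Pi.single_eq_of_ne (Ne.symm hne), Pi.single_eq_same, Pi.zero_apply,
            zero_sub, neg_eq_zero, star_eq_zero] at this
          exact h0 this
        · rw [dotProduct_sub, dotProduct_single, dotProduct_single]
          simp
          ring
        · rw [mulVec_sub, diagonal_mulVec_single, diagonal_mulVec_single, smul_sub]
          congr 1
          · ext l
            by_cases hl : l = i
            · subst hl; simp [hlam]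
            · simp [Pi.single_eq_of_ne hl]
          · ext l
            by_cases hl : l = j
            · subst hl; simp [hij]
            · simp [Pi.single_eq_of_ne hl]
    set x := U *ᵥ x' with hx
    have hx0 : x ≠ 0 := by
      intro h
      have : Uᴴ *ᵥ x = x' := by rw [hx, mulVec_mulVec, hU1, one_mulVec]
      rw [h, mulVec_zero] at this
      exact hx'0 this.symm
    have hHx : H *ᵥ x = (lam : ℂ) • x := by
      rw [hspec, hx, mulVec_mulVec, Matrix.mul_assoc, hU1, mul_one, ← mulVec_mulVec, hx'e,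
        mulVec_smul]
    -- R x
    have h2I : (2 * I : ℂ) ≠ 0 := by simp
    set rho : ℂ := (lam + I) / (2 * I) with hrho
    have hlI : (lam : ℂ) + I ≠ 0 := by
      intro h
      have := congrArg Complex.im h
      simp at this
    have hlI' : (lam : ℂ) - I ≠ 0 := by
      intro h
      have := congrArg Complex.im h
      simp at this
    have hRx : R *ᵥ x = rho • x := by
      have h3 : (2 * I) • (R *ᵥ x) = ((lam : ℂ) + I) • x := by
        have h4 : H *ᵥ x = (2 * I) • (R *ᵥ x) - I • x := by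
          rw [hHR, sub_mulVec, smul_mulVec, smul_mulVec, one_mulVec]
        rw [hHx] at h4
        rw [add_smul, h4]
        abel
      have h5 : R *ᵥ x = (2 * I)⁻¹ • ((2 * I) • (R *ᵥ x)) := by
        rw [smul_smul, inv_mul_cancel₀ h2I, one_smul]
      rw [h5, h3, smul_smul, hrho]
      congr 1
      field_simp
    have hrho0 : rho ≠ 0 := div_ne_zero hlI h2I
    -- V x
    have hz0 : z ≠ 0 := by rintro rfl; simp at hz
    have hVx : V *ᵥ x = (z⁻¹ * (1 - rho⁻¹)) • x := by
      have h3 : (1 - z • V) *ᵥ (R *ᵥ x) = x := by rw [mulVec_mulVec, hR2, one_mulVec]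
      rw [hRx, mulVec_smul, sub_mulVec, one_mulVec, smul_mulVec, smul_sub, smul_smul] at h3
      have h4 : (rho * z) • (V *ᵥ x) = (rho - 1) • x := by
        rw [sub_smul, one_smul, sub_eq_iff_eq_add] at *
        rw [eq_sub_iff_add_eq, add_comm]
        exact h3.symm
      have h5 : V *ᵥ x = (rho * z)⁻¹ • ((rho * z) • (V *ᵥ x)) := by
        rw [smul_smul, inv_mul_cancel₀ (mul_ne_zero hrho0 hz0), one_smul]
      rw [h5, h4, smul_smul]
      congr 1
      field_simp
    -- k* x = 0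
    have hkx : star k ⬝ᵥ x = 0 := by
      have h3 : star (R *ᵥ k) ⬝ᵥ x = 0 := by
        have h4 : star k2 ⬝ᵥ x' = star (R *ᵥ k) ⬝ᵥ x := by
          rw [hk2, star_mulVec, conjTranspose_conjTranspose, ← dotProduct_mulVec]
        rw [← h4]; exact hx'k
      rw [star_mulVec, ← dotProduct_mulVec] at h3
      have h5 : Rᴴ *ᵥ x = ((lam - I) / (-(2 * I))) • x := by
        have h6 : Hᴴ = -(2 * I) • Rᴴ + I • (1 : Matrix (Fin n) (Fin n) ℂ) := by
          conv_lhs => rw [hHR]
          rw [conjTranspose_sub, conjTranspose_smul, conjTranspose_smul, conjTranspose_one]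
          have e1 : star (2 * I) = -(2 * I) := by simp
          have e2 : star I = -I := by simp
          rw [e1, e2, neg_smul I, sub_neg_eq_add]
        have h7 : H *ᵥ x = -(2 * I) • (Rᴴ *ᵥ x) + I • x := by
          have : H = Hᴴ := hH.eq.symm
          rw [this, h6, add_mulVec, smul_mulVec, smul_mulVec, one_mulVec]
        rw [hHx] at h7
        have h8 : -(2 * I) • (Rᴴ *ᵥ x) = ((lam : ℂ) - I) • x := by
          rw [sub_smul, h7]; abel
        have h2I' : -(2 * I : ℂ) ≠ 0 := neg_ne_zero.2 h2I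
        have h9 : Rᴴ *ᵥ x = (-(2 * I))⁻¹ • (-(2 * I) • (Rᴴ *ᵥ x)) := by
          rw [smul_smul, inv_mul_cancel₀ h2I', one_smul]
        rw [h9, h8, smul_smul]
        congr 1
        field_simp
      rw [h5, dotProduct_smul, smul_eq_mul] at h3
      refine (mul_eq_zero.1 h3).resolve_left ?_
      exact div_ne_zero hlI' (neg_ne_zero.2 h2I)
    exact no_orth T k w hT2 hw x hx0 _ hVx hkx
  · intro i j
    have h2 : (Uᴴ * M * U) * diagonal (fun i => (hH.eigenvalues i : ℂ))
        - diagonal (fun i => (hH.eigenvalues i : ℂ)) * (Uᴴ * M * U)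
        = vecMulVec (Uᴴ *ᵥ u1) (star (Uᴴ *ᵥ (R *ᵥ k)))
          + vecMulVec (Uᴴ *ᵥ (R *ᵥ k)) (star (Uᴴ *ᵥ v1)) := by
      have h3 : Uᴴ * (M * H - H * M) * U = (Uᴴ * M * U) * diagonal (fun i => (hH.eigenvalues i : ℂ))
        - diagonal (fun i => (hH.eigenvalues i : ℂ)) * (Uᴴ * M * U) := by
        conv_lhs => rw [hspec]
        have e1 : Uᴴ * (M * (U * diagonal (fun i => (hH.eigenvalues i : ℂ)) * Uᴴ)
            - U * diagonal (fun i => (hH.eigenvalues i : ℂ)) * Uᴴ * M) * U
          = (Uᴴ * M * U) * diagonal (fun i => (hH.eigenvalues i : ℂ)) * (Uᴴ * U)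
            - (Uᴴ * U) * diagonal (fun i => (hH.eigenvalues i : ℂ)) * (Uᴴ * M * U) := by
          simp only [mul_sub, sub_mul, Matrix.mul_assoc]
        rw [e1, hU1, mul_one, one_mul]
      rw [← h3, h1, mul_add, add_mul, mul_vecMulVec, mul_vecMulVec, vecMulVec_mul, vecMulVec_mul]
      congr 2
      · rw [star_mulVec (Uᴴ), conjTranspose_conjTranspose]
      · rw [star_mulVec, conjTranspose_conjTranspose]
    have h4 := congrFun (congrFun h2 i) j
    rw [Matrix.sub_apply, mul_diagonal, diagonal_mul, Matrix.add_apply, vecMulVec_apply, vecMulVec_apply] at h4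
    simp only [Pi.star_apply] at h4
    rw [← h4]
    ring

end Pool.Agent.Y165.TTO
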