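import Mathlib

/-! The parametrisation is smooth, and so are the invariants. -/

set_option autoImplicit false

namespace Pool.Agent.Y165.TTO

open Matrix Complex

variable {n : ℕ}

/-- parameters -/
abbrev Par (n : ℕ) : Type :=
  (Fin n → ℝ) × (Fin n → ℂ) × (Fin n → ℂ) × (Fin n → ℂ) × (Fin n → ℂ)

/-- the matrix with parameters `(h, u, k, v, d)` -/
noncomputable def Mp (P : Par n) : Matrix (Fin n) (Fin n) ℂ := Matrix.of fun i j =>
  if i = j then P.2.2.2.2 i else
    (P.2.1 i * star (P.2.2.1 j) + P.2.2.1 i * star (P.2.2.2.1 j)) / ((P.1 j : ℂ) - P.1 i)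

/-- matrix valued functions with smooth entries -/
def MS {E : Type*} [NormedAddCommGroup E] [NormedSpace ℝ E]
    (N : E → Matrix (Fin n) (Fin n) ℂ) (P : E) : Prop :=
  ∀ i j, ContDiffAt ℝ 1 (fun Q => N Q i j) P

section

variable {E : Type*} [NormedAddCommGroup E] [NormedSpace ℝ E]
    {N N' : E → Matrix (Fin n) (Fin n) ℂ} {P : E}

theorem MS.add (h : MS N P) (h' : MS N' P) : MS (fun Q => N Q + N' Q) P := fun i j => by
  simpa using (h i j).add (h' i j)

theorem MS.sub (h : MS N P) (h' : MS N' P) : MS (fun Q => N Q - N' Q) P := fun i j => by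
  simpa using (h i j).sub (h' i j)

theorem MS.mul (h : MS N P) (h' : MS N' P) : MS (fun Q => N Q * N' Q) P := fun i j => by
  simp only [Matrix.mul_apply]
  exact ContDiffAt.sum fun l _ => (h i l).mul (h' l j)

theorem MS.const (C : Matrix (Fin n) (Fin n) ℂ) : MS (fun _ : E => C) P := fun i j => by
  exact contDiffAt_const

theorem MS.smul (c : ℂ) (h : MS N P) : MS (fun Q => c • N Q) P := fun i j => by
  simp only [Matrix.smul_apply, smul_eq_mul]
  exact contDiffAt_const.mul (h i j)

theorem MS.conjTranspose (h : MS N P) : MS (fun Q => (N Q)ᴴ) P := fun i j => by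
  simp only [Matrix.conjTranspose_apply]
  exact Complex.conjCLE.contDiff.contDiffAt.comp P (h j i)

theorem MS.pow (h : MS N P) (m : ℕ) : MS (fun Q => (N Q) ^ m) P := by
  induction m with
  | zero => simpa using MS.const (1 : Matrix (Fin n) (Fin n) ℂ)
  | succ m ih =>
    simp only [pow_succ]
    exact ih.mul h

theorem MS.aeval (h : MS N P) (p : Polynomial ℂ) :
    MS (fun Q => Polynomial.aeval (N Q) p) P := by
  simp only [Polynomial.aeval_eq_sum_range]
  intro i j
  simp only [Matrix.sum_apply]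
  exact ContDiffAt.sum fun l _ => (h.pow l).smul _ i j

theorem MS.trace_re (h : MS N P) : ContDiffAt ℝ 1 (fun Q => (Matrix.trace (N Q)).re) P := by
  have h1 : ContDiffAt ℝ 1 (fun Q => Matrix.trace (N Q)) P := by
    simp only [Matrix.trace, Matrix.diag_apply]
    exact ContDiffAt.sum fun l _ => h l l
  exact Complex.reCLM.contDiff.contDiffAt.comp P h1

end

theorem ms_Mp {P : Par n} (hP : Function.Injective P.1) : MS Mp P := by
  intro i j
  by_cases hij : i = j
  · simp only [Mp, Matrix.of_apply, hij, if_true]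
    fun_prop
  · simp only [Mp, Matrix.of_apply, hij, if_false]
    have hst : ∀ f : Par n → ℂ, ContDiffAt ℝ 1 f P → ContDiffAt ℝ 1 (fun Q => star (f Q)) P :=
      fun f hf => Complex.conjCLE.contDiff.contDiffAt.comp P hf
    have hre : ∀ l, ContDiffAt ℝ 1 (fun Q : Par n => ((Q.1 l : ℝ) : ℂ)) P := fun l =>
      Complex.ofRealCLM.contDiff.contDiffAt.comp P (by fun_prop)
    have h1 : ∀ l, ContDiffAt ℝ 1 (fun Q : Par n => Q.2.1 l) P := fun l => by fun_prop
    have h2 : ∀ l, ContDiffAt ℝ 1 (fun Q : Par n => Q.2.2.1 l) P := fun l => by fun_prop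
    have h3 : ∀ l, ContDiffAt ℝ 1 (fun Q : Par n => Q.2.2.2.1 l) P := fun l => by fun_prop
    simp only [div_eq_mul_inv]
    refine ContDiffAt.mul (((h1 i).mul (hst _ (h2 j))).add ((h2 i).mul (hst _ (h3 j))))
      (ContDiffAt.inv ((hre j).sub (hre i)) ?_)
    intro h
    apply hij
    have := sub_eq_zero.1 h
    exact (hP (by exact_mod_cast this)).symm

/-- the real part -/
noncomputable def Xp (N : Matrix (Fin n) (Fin n) ℂ) : Matrix (Fin n) (Fin n) ℂ :=
  (1 / 2 : ℂ) • (N + Nᴴ)

/-- the imaginary part -/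
noncomputable def Yp (N : Matrix (Fin n) (Fin n) ℂ) : Matrix (Fin n) (Fin n) ℂ :=
  (1 / (2 * I) : ℂ) • (N - Nᴴ)

/-- index pairs -/
abbrev Pr (n : ℕ) : Type := {p : Fin n × Fin n // p.1 < p.2}

/-- the real parts of the diagonal of `A` -/
noncomputable def av (n : ℕ) : Fin n → ℂ := fun i => ((i : ℕ) : ℂ)

theorem av_inj : Function.Injective (av n) := by
  intro i j h
  simp only [av] at h
  exact Fin.ext (by exact_mod_cast h)

/-- the Lagrange polynomials -/
noncomputable def Lg (i : Fin n) : Polynomial ℂ := Lagrange.basis Finset.univ (av n) i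

theorem eval_Lg (i j : Fin n) : (Lg i).eval (av n j) = if i = j then 1 else 0 := by
  by_cases h : i = j
  · subst h
    rw [if_pos rfl]
    exact Lagrange.eval_basis_self (av_inj.injOn) (Finset.mem_univ _)
  · rw [if_neg h]
    exact Lagrange.eval_basis_of_ne h (Finset.mem_univ _)

/-- the invariants of a matrix -/
noncomputable def Inv (N : Matrix (Fin n) (Fin n) ℂ) (p : Pr n) : ℝ :=
  (Matrix.trace (Polynomial.aeval (Xp N) (Lg p.1.1) * Yp N *
    (Polynomial.aeval (Xp N) (Lg p.1.2) * Yp N))).re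

theorem contDiffAt_Inv {P : Par n} (hP : Function.Injective P.1) :
    ContDiffAt ℝ 1 (fun Q => Inv (Mp Q)) P := by
  rw [contDiffAt_pi]
  intro p
  have h1 := ms_Mp hP
  have hX : MS (fun Q : Par n => Xp (Mp Q)) P := (h1.add h1.conjTranspose).smul _
  have hY : MS (fun Q : Par n => Yp (Mp Q)) P := (h1.sub h1.conjTranspose).smul _
  exact (((hX.aeval (Lg p.1.1)).mul hY).mul ((hX.aeval (Lg p.1.2)).mul hY)).trace_re

theorem aeval_conj (U A : Matrix (Fin n) (Fin n) ℂ) (hU : U * Uᴴ = 1) (p : Polynomial ℂ) :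
    Polynomial.aeval (Uᴴ * A * U) p = Uᴴ * Polynomial.aeval A p * U := by
  have hU' : Uᴴ * U = 1 := mul_eq_one_comm.1 hU
  have hpow : ∀ m : ℕ, (Uᴴ * A * U) ^ m = Uᴴ * A ^ m * U := by
    intro m
    induction m with
    | zero => simp [hU']
    | succ m ih =>
      rw [pow_succ, ih, pow_succ]
      calc Uᴴ * A ^ m * U * (Uᴴ * A * U) = Uᴴ * A ^ m * (U * Uᴴ) * A * U := by
            simp only [Matrix.mul_assoc]
        _ = _ := by rw [hU, mul_one]; simp only [Matrix.mul_assoc]
  simp only [Polynomial.aeval_eq_sum_range, hpow, Finset.mul_sum, Finset.sum_mul,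
    mul_smul_comm, smul_mul_assoc]

theorem aeval_diagonal (a : Fin n → ℂ) (p : Polynomial ℂ) :
    Polynomial.aeval (diagonal a) p = diagonal (fun i => p.eval (a i)) := by
  rw [Polynomial.aeval_eq_sum_range]
  ext i j
  rw [Matrix.sum_apply]
  by_cases h : i = j
  · subst h
    simp only [Matrix.smul_apply, diagonal_pow, diagonal_apply_eq, Pi.pow_apply, smul_eq_mul]
    rw [Polynomial.eval_eq_sum_range]
  · simp only [Matrix.smul_apply, diagonal_pow, diagonal_apply_ne _ h, smul_zero,
      Finset.sum_const_zero]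

/-- the invariants of `A + i B` with `A = diag (0, 1, ...)` and `B` real symmetric -/
theorem Inv_eq (U : Matrix (Fin n) (Fin n) ℂ) (hU : U * Uᴴ = 1) (B : Matrix (Fin n) (Fin n) ℝ)
    (hB : Bᵀ = B) (p : Pr n) :
    Inv (Uᴴ * (diagonal (av n) + I • B.map (fun x => (x : ℂ))) * U) p = (B p.1.1 p.1.2) ^ 2 := by
  have hU' : Uᴴ * U = 1 := mul_eq_one_comm.1 hU
  set C : Matrix (Fin n) (Fin n) ℂ := B.map (fun x => (x : ℂ)) with hC
  have hCH : Cᴴ = C := by
    ext i j
    have := congrFun (congrFun hB j) i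
    simp only [transpose_apply] at this
    simp [hC, conjTranspose_apply, this]
  have hAH : (diagonal (av n))ᴴ = diagonal (av n) := by
    rw [diagonal_conjTranspose]
    congr 1
    ext i
    simp [av]
  have hMH : (Uᴴ * (diagonal (av n) + I • C) * U)ᴴ = Uᴴ * (diagonal (av n) - I • C) * U := by
    rw [conjTranspose_mul, conjTranspose_mul, conjTranspose_conjTranspose, conjTranspose_add,
      conjTranspose_smul, hCH, hAH, ← Matrix.mul_assoc]
    have : star I = -I := by simp
    rw [this, neg_smul, ← sub_eq_add_neg]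
  have hX : Xp (Uᴴ * (diagonal (av n) + I • C) * U) = Uᴴ * diagonal (av n) * U := by
    unfold Xp
    rw [hMH, ← add_mul, ← mul_add]
    have : diagonal (av n) + I • C + (diagonal (av n) - I • C) = (2 : ℂ) • diagonal (av n) := by
      rw [two_smul]; abel
    rw [this, mul_smul_comm, smul_mul_assoc, smul_smul]
    norm_num
  have hY : Yp (Uᴴ * (diagonal (av n) + I • C) * U) = Uᴴ * C * U := by
    unfold Yp
    rw [hMH, ← sub_mul, ← mul_sub]
    have : diagonal (av n) + I • C - (diagonal (av n) - I • C) = (2 * I : ℂ) • C := by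
      rw [mul_smul, two_smul]; abel
    rw [this, mul_smul_comm, smul_mul_assoc, smul_smul]
    have h2 : (1 / (2 * I) * (2 * I) : ℂ) = 1 := by
      have : (2 * I : ℂ) ≠ 0 := by simp
      field_simp
    rw [h2, one_smul]
  unfold Inv
  rw [hX, hY, aeval_conj _ _ hU, aeval_conj _ _ hU, aeval_diagonal, aeval_diagonal]
  have e1 : Uᴴ * diagonal (fun i => (Lg p.1.1).eval (av n i)) * U * (Uᴴ * C * U) *
      (Uᴴ * diagonal (fun i => (Lg p.1.2).eval (av n i)) * U * (Uᴴ * C * U))
      = Uᴴ * ((diagonal (fun i => (Lg p.1.1).eval (av n i)) * C *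
        (diagonal (fun i => (Lg p.1.2).eval (av n i)) * C)) * U) := by
    calc _ = Uᴴ * diagonal (fun i => (Lg p.1.1).eval (av n i)) * (U * Uᴴ) * C * (U * Uᴴ) *
          diagonal (fun i => (Lg p.1.2).eval (av n i)) * (U * Uᴴ) * C * U := by
          simp only [Matrix.mul_assoc]
      _ = _ := by rw [hU]; simp only [mul_one, Matrix.mul_assoc]
  rw [e1, Matrix.trace_mul_comm, Matrix.mul_assoc, hU, mul_one]
  simp only [Matrix.trace, Matrix.diag_apply, Matrix.mul_apply (M := diagonal _ * C),
    diagonal_mul, eval_Lg]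
  have hsym : B p.1.2 p.1.1 = B p.1.1 p.1.2 := congrFun (congrFun hB p.1.1) p.1.2
  rw [Finset.sum_eq_single p.1.1]
  · rw [Finset.sum_eq_single p.1.2]
    · simp only [if_true, one_mul, hC, Matrix.map_apply, hsym]
      rw [← Complex.ofReal_mul, Complex.ofReal_re, sq]
    · intro j _ hj
      rw [if_neg (fun h : p.1.2 = j => hj h.symm)]
      ring
    · intro h; exact absurd (Finset.mem_univ _) h
  · intro i _ hi
    apply Finset.sum_eq_zero
    intro j _
    rw [if_neg (fun h => hi h.symm)]
    ring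
  · intro h; exact absurd (Finset.mem_univ _) h

end Pool.Agent.Y165.TTO
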