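import Pool.Agent.Y165.TTO.Dim
import Pool.Agent.Y165.TTO.Lin
import Pool.Agent.Y165.TTO.Smooth

/-! Complex symmetric matrices without orthogonal eigenvectors that are not unitarily equivalent
to truncated Toeplitz operators. -/

set_option autoImplicit false

namespace Pool.Agent.Y165.TTO

open Matrix Complex Filter Topology
open scoped ComplexOrder

variable {n : ℕ}

/-- no two eigenvectors are orthogonal -/
def NoOrth (M : Matrix (Fin n) (Fin n) ℂ) : Prop :=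
  ¬ ∃ x y : Fin n → ℂ, ∃ a b : ℂ, x ≠ 0 ∧ y ≠ 0 ∧
          M *ᵥ x = a • x ∧ M *ᵥ y = b • y ∧ star x ⬝ᵥ y = 0

/-- the symmetric matrix with squares of entries above the diagonal given by `S` -/
noncomputable def Bm (S : Pr n → ℝ) : Matrix (Fin n) (Fin n) ℝ := Matrix.of fun i j =>
  if h : i < j then Real.sqrt (S ⟨(i, j), h⟩) else
    if h : j < i then Real.sqrt (S ⟨(j, i), h⟩) else 1

theorem Bm_symm (S : Pr n → ℝ) : (Bm S)ᵀ = Bm S := by
  ext i j
  simp only [Bm, transpose_apply, of_apply]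
  rcases lt_trichotomy i j with h | h | h
  · simp [h, not_lt.2 h.le]
  · subst h; simp
  · simp [h, not_lt.2 h.le]

/-- the matrix `A + i B` -/
noncomputable def Ms (S : Pr n → ℝ) : Matrix (Fin n) (Fin n) ℂ :=
  diagonal (av n) + I • (Bm S).map (fun x => (x : ℂ))

theorem Ms_symm (S : Pr n → ℝ) : (Ms S)ᵀ = Ms S := by
  unfold Ms
  rw [transpose_add, diagonal_transpose, transpose_smul, ← transpose_map, Bm_symm]

theorem continuous_Bm : Continuous (Bm : (Pr n → ℝ) → Matrix (Fin n) (Fin n) ℝ) := by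
  refine continuous_matrix fun i j => ?_
  simp only [Bm, of_apply]
  split_ifs
  · exact Real.continuous_sqrt.comp (continuous_apply _)
  · exact Real.continuous_sqrt.comp (continuous_apply _)
  · exact continuous_const

theorem continuous_Ms : Continuous (Ms : (Pr n → ℝ) → Matrix (Fin n) (Fin n) ℂ) := by
  unfold Ms
  exact continuous_const.add ((continuous_Bm.matrix_map Complex.continuous_ofReal).const_smul I)

/-- the base point -/
theorem noOrth_one : NoOrth (Ms (n := n) (fun _ => 1)) := by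
  rintro ⟨x, y, a, b, hx, hy, hxa, hyb, hxy⟩
  have hB : ∀ i j, Bm (n := n) (fun _ => 1) i j = 1 := by
    intro i j
    simp [Bm]
  -- the eigenvector equations
  have hrow : ∀ (z : Fin n → ℂ) (c : ℂ), Ms (n := n) (fun _ => 1) *ᵥ z = c • z →
      ∀ j, (c - av n j) * z j = I * ∑ l, z l := by
    intro z c h j
    have h1 := congrFun h j
    have h2 : (Ms (n := n) (fun _ => 1) *ᵥ z) j = av n j * z j + I * ∑ l, z l := by
      unfold Ms
      rw [add_mulVec, Pi.add_apply, mulVec_diagonal, smul_mulVec, Pi.smul_apply, smul_eq_mul]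
      congr 2
      simp [mulVec, dotProduct, hB]
    rw [h2, Pi.smul_apply, smul_eq_mul] at h1
    linear_combination (-1 : ℂ) * h1
  have hsum : ∀ (z : Fin n → ℂ) (c : ℂ), z ≠ 0 → Ms (n := n) (fun _ => 1) *ᵥ z = c • z →
      ∑ l, z l ≠ 0 := by
    intro z c hz h h0
    obtain ⟨i, hi⟩ := Function.ne_iff.1 hz
    have h1 := hrow z c h
    rw [h0, mul_zero] at h1
    have h2 : c = av n i := by
      have := (mul_eq_zero.1 (h1 i)).resolve_right hi
      exact sub_eq_zero.1 this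
    have h3 : ∀ j, j ≠ i → z j = 0 := by
      intro j hj
      refine (mul_eq_zero.1 (h1 j)).resolve_left ?_
      intro h4
      apply hj
      exact (av_inj (h2.symm.trans (sub_eq_zero.1 h4))).symm
    rw [Finset.sum_eq_single i (fun j _ hj => h3 j hj)
      (fun h => absurd (Finset.mem_univ _) h)] at h0
    exact hi h0
  have hsx := hsum x a hx hxa
  have hsy := hsum y b hy hyb
  have h1 : (b - star a) * (star x ⬝ᵥ y) = 2 * I * (∑ l, y l) * star (∑ l, x l) := by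
    have h2 : ∀ j, (b - star a) * (star (x j) * y j)
        = I * (∑ l, y l) * star (x j) + I * star (∑ l, x l) * y j := by
      intro j
      have h3 := hrow x a hxa j
      have h4 := hrow y b hyb j
      have h5 := congrArg star h3
      rw [star_mul', star_sub, star_mul'] at h5
      have h6 : star (av n j) = av n j := by simp [av]
      have h7 : star I = -I := by simp
      rw [h6, h7] at h5
      linear_combination (star (x j)) * h4 - y j * h5
    simp only [dotProduct, Pi.star_apply, Finset.mul_sum]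
    rw [Finset.sum_congr rfl (fun j _ => h2 j), Finset.sum_add_distrib, ← Finset.mul_sum,
      ← Finset.mul_sum, ← star_sum]
    simp only [← Finset.mul_sum]
    ring
  rw [hxy, mul_zero] at h1
  have h2 : (2 * I * (∑ l, y l) * star (∑ l, x l) : ℂ) ≠ 0 := by
    refine mul_ne_zero (mul_ne_zero (by simp) hsy) ?_
    rwa [Ne, star_eq_zero]
  exact h2 h1.symm

/-- vanishes exactly at the eigenvectors -/
noncomputable def ray (M : Matrix (Fin n) (Fin n) ℂ) (x : Fin n → ℂ) : Fin n → ℂ :=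
  (star x ⬝ᵥ x) • (M *ᵥ x) - (star x ⬝ᵥ (M *ᵥ x)) • x

theorem continuous_ray :
    Continuous fun q : Matrix (Fin n) (Fin n) ℂ × (Fin n → ℂ) => ray q.1 q.2 := by
  simp only [ray, dotProduct, mulVec, Pi.star_apply]
  fun_prop

theorem ray_eq (M : Matrix (Fin n) (Fin n) ℂ) (x : Fin n → ℂ) :
    ray M x = (star x ⬝ᵥ x) • (M *ᵥ x) - (star x ⬝ᵥ (M *ᵥ x)) • x := rfl

attribute [irreducible] ray

theorem hg1 : Continuous fun q : Matrix (Fin n) (Fin n) ℂ × ((Fin n → ℂ) × (Fin n → ℂ)) =>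
      ray q.1 q.2.1 := by
  have h1 : Continuous fun q : Matrix (Fin n) (Fin n) ℂ × ((Fin n → ℂ) × (Fin n → ℂ)) =>
    (q.1, q.2.1) := by fun_prop
  exact (continuous_ray (n := n)).comp h1

theorem hg2 : Continuous fun q : Matrix (Fin n) (Fin n) ℂ × ((Fin n → ℂ) × (Fin n → ℂ)) =>
      ray q.1 q.2.2 := by
  have h1 : Continuous fun q : Matrix (Fin n) (Fin n) ℂ × ((Fin n → ℂ) × (Fin n → ℂ)) =>
    (q.1, q.2.2) := by fun_prop
  exact (continuous_ray (n := n)).comp h1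

theorem ev_aux1 (M0 : Matrix (Fin n) (Fin n) ℂ) (p : (Fin n → ℂ) × (Fin n → ℂ))
    (h3 : ray M0 p.1 ≠ 0) :
    ∀ᶠ z : Matrix (Fin n) (Fin n) ℂ × ((Fin n → ℂ) × (Fin n → ℂ)) in 𝓝 (M0, p),
      ray z.1 z.2.1 ≠ 0 := by
  have := hg1.tendsto (M0, p)
  exact this.eventually_ne h3

theorem ev_aux2 (M0 : Matrix (Fin n) (Fin n) ℂ) (p : (Fin n → ℂ) × (Fin n → ℂ))
    (h3 : ray M0 p.2 ≠ 0) :
    ∀ᶠ z : Matrix (Fin n) (Fin n) ℂ × ((Fin n → ℂ) × (Fin n → ℂ)) in 𝓝 (M0, p),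
      ray z.1 z.2.2 ≠ 0 := by
  have := hg2.tendsto (M0, p)
  exact this.eventually_ne h3

theorem ev_aux (M0 : Matrix (Fin n) (Fin n) ℂ) (p : (Fin n → ℂ) × (Fin n → ℂ))
    (h2 : ¬ (ray M0 p.1 = 0 ∧ ray M0 p.2 = 0)) :
    ∀ᶠ z : Matrix (Fin n) (Fin n) ℂ × ((Fin n → ℂ) × (Fin n → ℂ)) in 𝓝 (M0, p),
      ¬ (ray z.1 z.2.1 = 0 ∧ ray z.1 z.2.2 = 0) := by
  rcases not_and_or.1 h2 with h3 | h3
  · exact (ev_aux1 M0 p h3).mono fun q hq hq2 => hq hq2.1
  · exact (ev_aux2 M0 p h3).mono fun q hq hq2 => hq hq2.2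

/-- having no two orthogonal eigenvectors is an open condition -/
theorem noOrth_open (M0 : Matrix (Fin n) (Fin n) ℂ) (h0 : NoOrth M0) :
    ∀ᶠ M in 𝓝 M0, NoOrth M := by
  -- the compact set
  let K : Set ((Fin n → ℂ) × (Fin n → ℂ)) :=
    (Metric.sphere 0 1 ×ˢ Metric.sphere 0 1) ∩ {p | star p.1 ⬝ᵥ p.2 = 0}
  have hcont : Continuous fun p : (Fin n → ℂ) × (Fin n → ℂ) => star p.1 ⬝ᵥ p.2 := by
    simp only [dotProduct, Pi.star_apply]
    fun_prop
  have hK : IsCompact K :=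
    ((isCompact_sphere _ _).prod (isCompact_sphere _ _)).inter_right
      (isClosed_eq hcont continuous_const)
  have hf0 : ∀ (M : Matrix (Fin n) (Fin n) ℂ) (x : Fin n → ℂ) (a : ℂ), M *ᵥ x = a • x →
      ray M x = 0 := by
    intro M x a h
    simp only [ray_eq, h, dotProduct_smul, smul_smul, smul_eq_mul]
    rw [mul_comm, sub_self]
  have hf1 : ∀ (M : Matrix (Fin n) (Fin n) ℂ) (x : Fin n → ℂ), x ≠ 0 → ray M x = 0 →
      ∃ a : ℂ, M *ᵥ x = a • x := by
    intro M x hx h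
    have h1 : star x ⬝ᵥ x ≠ 0 := fun h => hx (dotProduct_star_self_eq_zero.1 h)
    refine ⟨(star x ⬝ᵥ x)⁻¹ * (star x ⬝ᵥ (M *ᵥ x)), ?_⟩
    rw [ray_eq] at h
    have h2 := sub_eq_zero.1 h
    rw [mul_smul, ← h2, smul_smul, inv_mul_cancel₀ h1, one_smul]
  have key : ∀ᶠ M in 𝓝 M0, ∀ p ∈ K, ¬ (ray M p.1 = 0 ∧ ray M p.2 = 0) := by
    refine hK.eventually_forall_of_forall_eventually ?_
    intro p hp
    have hpx : p.1 ≠ 0 := by
      intro h
      have := hp.1.1
      rw [h] at this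
      simp at this
    have hpy : p.2 ≠ 0 := by
      intro h
      have := hp.1.2
      rw [h] at this
      simp at this
    have h2 : ¬ (ray M0 p.1 = 0 ∧ ray M0 p.2 = 0) := by
      rintro ⟨h3, h4⟩
      obtain ⟨a, ha⟩ := hf1 M0 p.1 hpx h3
      obtain ⟨b, hb⟩ := hf1 M0 p.2 hpy h4
      exact h0 ⟨p.1, p.2, a, b, hpx, hpy, ha, hb, hp.2⟩
    exact ev_aux M0 p h2
  filter_upwards [key] with M hM
  rintro ⟨x, y, a, b, hx, hy, hxa, hyb, hxy⟩
  have hnx : ‖x‖ ≠ 0 := norm_ne_zero_iff.2 hx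
  have hny : ‖y‖ ≠ 0 := norm_ne_zero_iff.2 hy
  refine hM (((‖x‖ : ℂ)⁻¹) • x, ((‖y‖ : ℂ)⁻¹) • y) ⟨⟨?_, ?_⟩, ?_⟩ ⟨?_, ?_⟩
  · simp [norm_smul, hnx]
  · simp [norm_smul, hny]
  · show star (((‖x‖ : ℂ)⁻¹) • x) ⬝ᵥ (((‖y‖ : ℂ)⁻¹) • y) = 0
    rw [star_smul, smul_dotProduct, dotProduct_smul, hxy, smul_zero, smul_zero]
  · apply hf0 M _ a
    show M *ᵥ (((‖x‖ : ℂ)⁻¹) • x) = _
    rw [mulVec_smul, hxa, smul_comm]
  · apply hf0 M _ b
    show M *ᵥ (((‖y‖ : ℂ)⁻¹) • y) = _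
    rw [mulVec_smul, hyb, smul_comm]

theorem finrank_lt : Module.finrank ℝ (Par 20) < Module.finrank ℝ (Pr 20 → ℝ) := by
  have h1 : Fintype.card (Pr 20) = 190 := by decide +kernel
  have h2 : Module.finrank ℝ (Fin 20 → ℂ) = 40 := by
    rw [Module.finrank_pi_fintype]
    simp [Complex.finrank_real_complex]
  rw [Module.finrank_fintype_fun_eq_card, h1]
  simp only [Module.finrank_prod, h2, Module.finrank_fintype_fun_eq_card, Fintype.card_fin]
  norm_num

/-- **Main theorem.** -/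
theorem main : ∃ M : Matrix (Fin 20) (Fin 20) ℂ, Mᵀ = M ∧ NoOrth M ∧
    ¬ ∃ T : Matrix (Fin 20) (Fin 20) ℂ, ∃ k u v : Fin 20 → ℂ,
        1 - T * Tᴴ = Matrix.vecMulVec k (star k) ∧
        (∀ μ : ℂ, ∀ x : Fin 20 → ℂ, x ≠ 0 → T *ᵥ x = μ • x → ‖μ‖ < 1) ∧
        M - T * M * Tᴴ = Matrix.vecMulVec u (star k) + Matrix.vecMulVec k (star v) := by
  have hd : Dense ((fun P : Par 20 => Inv (Mp P)) '' {P | Function.Injective P.1})ᶜ :=
    dense_compl_image (fun P hP => contDiffAt_Inv hP) finrank_lt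
  -- the good neighbourhood
  have hn1 : ∀ᶠ S : Pr 20 → ℝ in 𝓝 (fun _ => 1), NoOrth (Ms S) :=
    (continuous_Ms.tendsto _).eventually (noOrth_open _ noOrth_one)
  have hn2 : ∀ᶠ S : Pr 20 → ℝ in 𝓝 (fun _ => 1), ∀ p, 0 < S p := by
    rw [Filter.eventually_all]
    intro p
    have : Tendsto (fun S : Pr 20 → ℝ => S p) (𝓝 (fun _ => 1)) (𝓝 1) :=
      (continuous_apply p).tendsto _
    exact this.eventually (lt_mem_nhds one_pos)
  obtain ⟨S, hS, hS1, hS2⟩ := (hd.inter_nhds_nonempty (hn1.and hn2))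
  refine ⟨Ms S, Ms_symm S, hS1, ?_⟩
  rintro ⟨T, k, u, v, hT, hT2, hM⟩
  obtain ⟨U, h, k', u', v', hU, hinj, hrel⟩ := normal_form (Ms S) T k u v hT hT2 hM
  apply hS
  refine ⟨(h, u', k', v', fun i => (Uᴴ * Ms S * U) i i), hinj, ?_⟩
  have hMp : Mp (h, u', k', v', fun i => (Uᴴ * Ms S * U) i i) = Uᴴ * Ms S * U := by
    ext i j
    simp only [Mp, of_apply]
    by_cases hij : i = j
    · subst hij; simp
    · rw [if_neg hij, ← hrel i j]
      have hne : ((h j : ℂ) - h i) ≠ 0 := by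
        intro h0
        exact hij (hinj (by exact_mod_cast (sub_eq_zero.1 h0).symm))
      field_simp
  ext p
  show Inv (Mp (h, u', k', v', fun i => (Uᴴ * Ms S * U) i i)) p = S p
  rw [hMp]
  unfold Ms
  rw [Inv_eq U hU (Bm S) (Bm_symm S) p]
  have : Bm S p.1.1 p.1.2 = Real.sqrt (S p) := by
    simp only [Bm, of_apply, dif_pos p.2]
  rw [this, Real.sq_sqrt (hS2 p).le]

end Pool.Agent.Y165.TTO
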