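import Mathlib

/-! A smooth image of a lower-dimensional space has dense complement (local form). -/

set_option autoImplicit false

namespace Pool.Agent.Y165.TTO

open Module MeasureTheory

theorem dense_compl_image {E F : Type*} [NormedAddCommGroup E] [NormedSpace ℝ E]
    [FiniteDimensional ℝ E] [NormedAddCommGroup F] [NormedSpace ℝ F] [FiniteDimensional ℝ F]
    {f : E → F} {s : Set E} (hf : ∀ x ∈ s, ContDiffAt ℝ 1 f x)
    (h : finrank ℝ E < finrank ℝ F) : Dense (f '' s)ᶜ := by
  apply dense_compl_of_dimH_lt_finrank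
  calc dimH (f '' s) ≤ dimH s := by
        apply dimH_image_le_of_locally_lipschitzOn
        intro x hx
        obtain ⟨K, t, ht, hK⟩ := (hf x hx).exists_lipschitzOnWith
        exact ⟨K, t, mem_nhdsWithin_of_mem_nhds ht, hK⟩
    _ ≤ dimH (Set.univ : Set E) := dimH_mono (Set.subset_univ _)
    _ = finrank ℝ E := Real.dimH_univ_eq_finrank E
    _ < finrank ℝ F := by exact_mod_cast h

end Pool.Agent.Y165.TTO
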